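import Mathlib

namespace Pool.Agent.H.MP_fefe6a_co

open Finset

/-- orbit count of an involution -/
theorem orb2 {X : Type} [Finite X] (σ : X → X) (hσ : ∀ x, σ (σ x) = x) :
    2 * Nat.card (Quot fun a b : X => b = a ∨ b = σ a) = Nat.card X + Nat.card {x // σ x = x} := by
  classical
  have := Fintype.ofFinite X
  set r := fun a b : X => b = a ∨ b = σ a with hr
  have he : Equivalence r := by
    refine ⟨fun x => Or.inl rfl, ?_, ?_⟩
    · rintro a b (h | h)
      · exact Or.inl h.symm
      · exact Or.inr (by rw [h, hσ])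
    · rintro a b c (h | h) (h' | h')
      · exact Or.inl (h'.trans h)
      · exact Or.inr (by rw [h', h])
      · exact Or.inr (by rw [h', h])
      · exact Or.inl (by rw [h', h, hσ])
  have hq : ∀ a b, Quot.mk r a = Quot.mk r b ↔ r a b := fun a b => by
    rw [Quot.eq, he.eqvGen_iff]
  have : Fintype (Quot r) := Fintype.ofFinite _
  rw [Nat.card_eq_fintype_card, Nat.card_eq_fintype_card, Nat.card_eq_fintype_card,
    Fintype.card_subtype, ← Finset.card_univ, ← Finset.card_univ (α := X),
    Finset.card_eq_sum_card_fiberwise (s := (univ : Finset X)) (t := univ) (f := Quot.mk r)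
      (fun _ _ => by simp),
    Finset.card_eq_sum_card_fiberwise (s := univ.filter fun x => σ x = x) (t := univ)
      (f := Quot.mk r) (fun _ _ => by simp), ← Finset.sum_add_distrib, Finset.card_eq_sum_ones,
    Finset.mul_sum]
  refine Finset.sum_congr rfl fun z _ => ?_
  induction z using Quot.ind with
  | mk a =>
    by_cases h : σ a = a
    · have e1 : (univ.filter fun x => Quot.mk r x = Quot.mk r a) = {a} := by
        ext x
        simp only [mem_filter, mem_univ, true_and, mem_singleton]
        rw [eq_comm, hq]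
        simp [hr, h]
      have e2 : ((univ.filter fun x => σ x = x).filter fun x => Quot.mk r x = Quot.mk r a) = {a} := by
        ext x
        simp only [mem_filter, mem_univ, true_and, mem_singleton]
        rw [eq_comm (a := Quot.mk r x), hq]
        simp only [hr, h, or_self]
        exact ⟨fun h => h.2, fun h' => ⟨by rw [h', h], h'⟩⟩
      rw [e1, e2]; simp
    · have e1 : (univ.filter fun x => Quot.mk r x = Quot.mk r a) = {a, σ a} := by
        ext x
        simp only [mem_filter, mem_univ, true_and, mem_insert, mem_singleton]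
        rw [eq_comm, hq]
      have e2 : ((univ.filter fun x => σ x = x).filter fun x => Quot.mk r x = Quot.mk r a) = ∅ := by
        ext x
        simp only [mem_filter, mem_univ, true_and, Finset.notMem_empty, iff_false, not_and]
        intro hx
        rw [eq_comm (a := Quot.mk r x), hq]
        rintro (h' | h')
        · exact h (by rw [← h', hx])
        · exact h (by rw [h', hσ] at hx; exact hx.symm)
      rw [e1, e2, Finset.card_pair (fun e => h e.symm)]; simp

/-- falling product -/
noncomputable def D (k : ℕ) (x : ℝ) : ℝ := ∏ i ∈ range k, (x - i)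

theorem D_nat (m k : ℕ) : ((m.descFactorial k : ℕ) : ℝ) = D k m := by
  induction k with
  | zero => simp [D]
  | succ k ih =>
    rw [D, prod_range_succ, ← D, ← ih, Nat.descFactorial_succ]
    by_cases h : k ≤ m
    · push_cast [Nat.cast_sub h]; ring
    · rw [Nat.descFactorial_of_lt (by omega)]; simp

abbrev E (t q : ℕ) := Fin t × Fin t × Fin q

abbrev V (t q : ℕ) (β : Type) := Fin t ⊕ (E t q × Bool) ⊕ (β × Fin t)

def Good {t q : ℕ} {β α : Type} (c : V t q β → α) : Prop :=
  (∀ e : E t q, c (.inr (.inl (e, false))) ≠ c (.inl e.1) ∧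
    c (.inr (.inl (e, true))) ≠ c (.inl e.2.1) ∧
    c (.inr (.inl (e, false))) ≠ c (.inr (.inl (e, true)))) ∧
  ∀ b : β, Function.Injective (fun k => c (.inr (.inr (b, k)))) ∧
    ∀ k i, c (.inr (.inr (b, k))) ≠ c (.inl i)

abbrev Soft {α : Type} (a b : α) := {p : α × α // p.1 ≠ a ∧ p.2 ≠ b ∧ p.1 ≠ p.2}

abbrev Inj {t : ℕ} {α : Type} (c : Fin t → α) :=
  {f : Fin t → α // Function.Injective f ∧ ∀ k i, f k ≠ c i}

def eqv (t q : ℕ) (β α : Type) : {c : V t q β → α // Good c} ≃
    Σ c : Fin t → α, (∀ e : E t q, Soft (c e.1) (c e.2.1)) × (β → Inj c) where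
  toFun c := ⟨fun i => c.1 (.inl i),
    fun e => ⟨(c.1 (.inr (.inl (e, false))), c.1 (.inr (.inl (e, true)))), c.2.1 e⟩,
    fun b => ⟨fun k => c.1 (.inr (.inr (b, k))), c.2.2 b⟩⟩
  invFun x := ⟨Sum.elim x.1 (Sum.elim (fun p => cond p.2 (x.2.1 p.1).1.2 (x.2.1 p.1).1.1)
    (fun p => (x.2.2 p.1).1 p.2)), fun e => (x.2.1 e).2, fun b => (x.2.2 b).2⟩
  left_inv c := by
    apply Subtype.ext
    funext v
    rcases v with i | ⟨e, b⟩ | ⟨b, k⟩
    · rfl
    · cases b <;> rfl
    · rfl
  right_inv x := rfl

theorem card_soft (n : ℕ) (a b : Fin n) : (Nat.card (Soft a b) : ℝ) =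
    if a = b then ((n : ℝ) - 1) * (n - 2) else ((n : ℝ) - 1) * (n - 2) + 1 := by
  classical
  rw [Nat.card_eq_fintype_card, Fintype.card_subtype]
  have h1 : (univ.filter fun p : Fin n × Fin n => p.1 ≠ a ∧ p.2 ≠ b ∧ p.1 ≠ p.2).card =
      ∑ y ∈ univ.erase a, ((univ.erase b).erase y).card := by
    rw [← Finset.card_sigma]
    refine Finset.card_bij (fun p _ => ⟨p.1, p.2⟩) ?_ ?_ ?_
    · intro p hp
      simp only [mem_filter, mem_univ, true_and] at hp
      simp [hp.1, hp.2.1, hp.2.2.symm]
    · intro p _ p' _ h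
      simp only [Sigma.mk.injEq, heq_eq_eq] at h
      exact Prod.ext h.1 h.2
    · rintro ⟨y, z⟩ h
      simp only [mem_sigma, mem_erase, mem_univ, and_true] at h
      exact ⟨(y, z), by simp [h.1, h.2.2, h.2.1.symm], rfl⟩
  have hn : 1 ≤ n := Nat.one_le_iff_ne_zero.2 fun h => by subst h; exact a.elim0
  have h2 : ∀ y : Fin n, ((((univ.erase b).erase y).card : ℕ) : ℝ) =
      (n - 2 : ℝ) + if y = b then 1 else 0 := by
    intro y
    by_cases hy : y = b
    · subst hy
      rw [erase_idem, card_erase_of_mem (mem_univ _)]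
      simp [Nat.cast_sub hn]; ring
    · have : 1 ≤ n - 1 := by
        have := card_pos.2 ⟨y, (mem_erase.2 ⟨hy, mem_univ y⟩ : y ∈ univ.erase b)⟩
        rw [card_erase_of_mem (mem_univ _), card_univ, Fintype.card_fin] at this
        exact this
      rw [card_erase_of_mem (mem_erase.2 ⟨hy, mem_univ y⟩), card_erase_of_mem (mem_univ _)]
      simp only [card_univ, Fintype.card_fin, hy, if_false]
      rw [Nat.cast_sub this, Nat.cast_sub hn]; push_cast; ring
  rw [h1]
  push_cast
  rw [sum_congr rfl fun y _ => h2 y, sum_add_distrib, sum_const, card_erase_of_mem (mem_univ _),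
    sum_ite_eq']
  simp only [card_univ, Fintype.card_fin, nsmul_eq_mul, Nat.cast_sub hn, mem_erase, mem_univ,
    and_true]
  by_cases h : a = b
  · simp [h]
  · simp [h, Ne.symm h]

theorem card_inj (t n : ℕ) (c : Fin t → Fin n) : (Nat.card (Inj c) : ℝ) =
    D t ((n : ℝ) - Nat.card (Quotient (Setoid.ker c))) := by
  classical
  have e : Inj c ≃ (Fin t ↪ {x // x ∉ Set.range c}) :=
    { toFun := fun f => ⟨fun k => ⟨f.1 k, fun ⟨i, h⟩ => f.2.2 k i h.symm⟩,
        fun a b h => f.2.1 (congrArg Subtype.val h)⟩
      invFun := fun g => ⟨fun k => (g k).1, fun a b h => g.injective (Subtype.ext h),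
        fun k i h => (g k).2 ⟨i, h.symm⟩⟩
      left_inv := fun f => rfl
      right_inv := fun g => rfl }
  rw [Nat.card_congr e, Nat.card_congr (Setoid.quotientKerEquivRange c), Nat.card_eq_fintype_card,
    Fintype.card_embedding_eq, D_nat, Fintype.card_fin, Fintype.card_subtype_compl,
    Nat.card_eq_fintype_card, Nat.cast_sub (Fintype.card_subtype_le _), Fintype.card_fin]

theorem card_ker (t n : ℕ) (τ : Setoid (Fin t)) :
    (Nat.card {c : Fin t → Fin n // Setoid.ker c = τ} : ℝ) = D (Nat.card (Quotient τ)) n := by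
  classical
  have e : {c : Fin t → Fin n // Setoid.ker c = τ} ≃ (Quotient τ ↪ Fin n) :=
    { toFun := fun c => ⟨Quotient.lift c.1 (fun a b h => by
          have h' : τ a b := h
          rw [← c.2] at h'; exact h'), fun a b => Quotient.inductionOn₂ a b fun x y h => by
          apply Quotient.sound
          have h' : (Setoid.ker c.1) x y := h
          rw [c.2] at h'; exact h'⟩
      invFun := fun g => ⟨fun i => g (Quotient.mk τ i), by
        ext x y
        rw [Setoid.ker_def, g.injective.eq_iff, Quotient.eq]⟩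
      left_inv := fun c => rfl
      right_inv := fun g => by
        ext a
        induction a using Quotient.ind with
        | _ x => rfl }
  have : Fintype (Quotient τ) := Fintype.ofFinite _
  rw [Nat.card_congr e, Nat.card_eq_fintype_card, Fintype.card_embedding_eq, D_nat,
    Fintype.card_fin, Nat.card_eq_fintype_card]

instance fin_setoid (t : ℕ) : Finite (Setoid (Fin t)) :=
  Finite.of_injective (fun τ : Setoid (Fin t) => fun a b => τ a b)
    fun a b h => Setoid.ext fun x y => by rw [show a x y = b x y from congrFun (congrFun h x) y]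

noncomputable instance fint_setoid (t : ℕ) : Fintype (Setoid (Fin t)) := Fintype.ofFinite _

open Classical in
noncomputable def w {t : ℕ} (τ : Setoid (Fin t)) (x : ℝ) : ℝ :=
  ∏ p : Fin t × Fin t, if τ p.1 p.2 then (x - 1) * (x - 2) else (x - 1) * (x - 2) + 1

noncomputable def F (t q m : ℕ) (x : ℝ) : ℝ :=
  ∑ τ : Setoid (Fin t), D (Nat.card (Quotient τ)) x *
    (w τ x ^ q * D t (x - Nat.card (Quotient τ)) ^ m)

theorem count (t q n : ℕ) (β : Type) [Fintype β] :
    (Nat.card {c : V t q β → Fin n // Good c} : ℝ) = F t q (Fintype.card β) n := by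
  classical
  rw [Nat.card_congr (eqv t q β (Fin n)), Nat.card_sigma]
  push_cast
  rw [← Finset.sum_fiberwise (s := univ) (g := fun c : Fin t → Fin n => Setoid.ker c), F]
  refine sum_congr rfl fun τ _ => ?_
  rw [← card_ker, Nat.card_eq_fintype_card, Fintype.card_subtype, ← nsmul_eq_mul, ← sum_const]
  refine sum_congr rfl fun c hc => ?_
  have hc' : Setoid.ker c = τ := (mem_filter.1 hc).2
  rw [Nat.card_prod, Nat.card_pi, Nat.card_fun]
  push_cast
  rw [card_inj, hc', Nat.card_eq_fintype_card (α := β)]
  congr 1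
  rw [prod_congr rfl fun e _ => card_soft n (c e.1) (c e.2.1), w, ← hc', ← Finset.prod_pow,
    Fintype.prod_prod_type, Fintype.prod_prod_type]
  refine prod_congr rfl fun i _ => ?_
  rw [Fintype.prod_prod_type]
  refine prod_congr rfl fun j _ => ?_
  by_cases h : c i = c j <;> simp [h, Setoid.ker_def]

end Pool.Agent.H.MP_fefe6a_co
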