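import Mathlib
import Pool.Agent.H.MP_fefe6a_co.A

namespace Pool.Agent.H.MP_fefe6a_co

open Finset Polynomial Filter Topology

def IsP (f : ℝ → ℝ) : Prop := ∃ P : ℝ[X], ∀ x, P.eval x = f x

theorem IsP.c (a : ℝ) : IsP fun _ => a := ⟨C a, by simp⟩
theorem IsP.sub_c (a : ℝ) : IsP fun x => x - a := ⟨X - C a, by simp⟩
theorem IsP.mul {f g : ℝ → ℝ} (hf : IsP f) (hg : IsP g) : IsP fun x => f x * g x := by
  obtain ⟨P, hP⟩ := hf; obtain ⟨Q, hQ⟩ := hg
  exact ⟨P * Q, by simp [hP, hQ]⟩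
theorem IsP.add {f g : ℝ → ℝ} (hf : IsP f) (hg : IsP g) : IsP fun x => f x + g x := by
  obtain ⟨P, hP⟩ := hf; obtain ⟨Q, hQ⟩ := hg
  exact ⟨P + Q, by simp [hP, hQ]⟩
theorem IsP.pow {f : ℝ → ℝ} (hf : IsP f) (k : ℕ) : IsP fun x => f x ^ k := by
  obtain ⟨P, hP⟩ := hf
  exact ⟨P ^ k, by simp [hP]⟩
theorem IsP.prod {ι : Type} (s : Finset ι) (f : ι → ℝ → ℝ) (h : ∀ i, IsP (f i)) :
    IsP fun x => ∏ i ∈ s, f i x := by
  choose P hP using h
  exact ⟨∏ i ∈ s, P i, by simp [eval_prod, hP]⟩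
theorem IsP.sum {ι : Type} (s : Finset ι) (f : ι → ℝ → ℝ) (h : ∀ i, IsP (f i)) :
    IsP fun x => ∑ i ∈ s, f i x := by
  choose P hP using h
  exact ⟨∑ i ∈ s, P i, by simp [eval_finset_sum, hP]⟩

theorem isP_D (k : ℕ) (a : ℝ) : IsP fun x => D k (x - a) := by
  unfold D
  refine IsP.prod _ (fun (i : ℕ) x => x - a - i) fun i => ?_
  simpa [sub_sub] using IsP.sub_c (a + i)

theorem isP_F (t q m : ℕ) : IsP (F t q m) := by
  classical
  unfold F
  refine IsP.sum _ _ fun τ => IsP.mul (by simpa using isP_D _ 0)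
    (IsP.mul (IsP.pow ?_ _) (IsP.pow (isP_D _ _) _))
  unfold w
  refine IsP.prod _ _ fun p => ?_
  split_ifs
  · exact (IsP.sub_c 1).mul (IsP.sub_c 2)
  · exact ((IsP.sub_c 1).mul (IsP.sub_c 2)).add (IsP.c 1)

theorem D_pos (k : ℕ) (x : ℝ) (h : (k : ℝ) - 1 < x) : 0 < D k x := by
  refine prod_pos fun i hi => ?_
  have : (i : ℝ) + 1 ≤ k := by exact_mod_cast mem_range.1 hi
  linarith

theorem w_pos {t : ℕ} (τ : Setoid (Fin t)) (x : ℝ) (h : 2 < x) : 0 < w τ x := by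
  have : 0 < (x - 1) * (x - 2) := mul_pos (by linarith) (by linarith)
  refine prod_pos fun p _ => ?_
  split_ifs <;> linarith

theorem w_lt {t : ℕ} (τ : Setoid (Fin t)) (hτ : τ ≠ ⊥) (x : ℝ) (h : 2 < x) :
    w τ x < w (⊥ : Setoid (Fin t)) x := by
  classical
  have h0 : 0 < (x - 1) * (x - 2) := mul_pos (by linarith) (by linarith)
  have : ∃ a b, τ a b ∧ a ≠ b := by
    by_contra hc
    push Not at hc
    apply hτ
    ext a b
    rw [Setoid.bot_def]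
    exact ⟨hc a b, fun e => e ▸ τ.refl a⟩
  obtain ⟨a, b, hab, hne⟩ := this
  unfold w
  refine prod_lt_prod (fun p _ => by split_ifs <;> linarith) (fun p _ => ?_)
    ⟨(a, b), mem_univ _, ?_⟩
  · by_cases h1 : τ p.1 p.2
    · rw [if_pos h1]; split_ifs <;> linarith
    · have h2 : ¬ (⊥ : Setoid (Fin t)) p.1 p.2 := by
        rw [Setoid.bot_def]
        intro e
        exact h1 (by rw [e])
      rw [if_neg h1, if_neg h2]
  · have h2 : ¬ (⊥ : Setoid (Fin t)) a b := by rw [Setoid.bot_def]; exact hne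
    rw [if_pos hab, if_neg h2]; linarith

theorem k_le {t : ℕ} (τ : Setoid (Fin t)) : Nat.card (Quotient τ) ≤ t := by
  have := Nat.card_le_card_of_surjective (Quotient.mk τ) Quotient.mk_surjective
  simpa using this

theorem k_pos {t : ℕ} (ht : 0 < t) (τ : Setoid (Fin t)) : 0 < Nat.card (Quotient τ) := by
  have : Nonempty (Quotient τ) := ⟨Quotient.mk τ ⟨0, ht⟩⟩
  exact Nat.card_pos

theorem k_top {t : ℕ} (ht : 0 < t) : Nat.card (Quotient (⊤ : Setoid (Fin t))) = 1 := by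
  rw [Nat.card_eq_one_iff_unique]
  exact ⟨⟨fun a b => Quotient.inductionOn₂ a b fun _ _ => Quotient.sound trivial⟩,
    ⟨Quotient.mk _ ⟨0, ht⟩⟩⟩

theorem k_bot (t : ℕ) : Nat.card (Quotient (⊥ : Setoid (Fin t))) = t := by
  have : Function.Bijective (Quotient.mk (⊥ : Setoid (Fin t))) :=
    ⟨fun a b h => Quotient.exact h, Quotient.mk_surjective⟩
  rw [← Nat.card_eq_of_bijective _ this]; simp

theorem F_pos (t q : ℕ) (ht : 2 ≤ t) (x : ℝ) (h : (t : ℝ) < x) : 0 < F t q 2 x := by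
  have h2 : (2 : ℝ) < x := lt_of_le_of_lt (by exact_mod_cast ht) h
  have hD : ∀ τ : Setoid (Fin t), 0 < D (Nat.card (Quotient τ)) x := fun τ => by
    apply D_pos
    have : ((Nat.card (Quotient τ) : ℕ) : ℝ) ≤ t := by exact_mod_cast k_le τ
    linarith
  refine sum_pos' (fun τ _ => mul_nonneg (hD τ).le (mul_nonneg (pow_pos (w_pos τ x h2) _).le
    (sq_nonneg _))) ⟨⊤, mem_univ _, mul_pos (hD _) (mul_pos (pow_pos (w_pos _ x h2) _)
      (pow_pos (D_pos _ _ ?_) _))⟩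
  rw [k_top (by omega)]
  push_cast; linarith

theorem F_zero (t q m : ℕ) (ht : 0 < t) : F t q m 0 = 0 := by
  refine sum_eq_zero fun τ _ => ?_
  have : D (Nat.card (Quotient τ)) 0 = 0 :=
    prod_eq_zero (mem_range.2 (k_pos ht τ)) (by simp)
  rw [this, zero_mul]

theorem exists_y (s : ℕ) : ∃ y : ℝ, (s : ℝ) - 1 < y ∧ y < s ∧ -1 < D (s + 1) y ∧ D (s + 1) y < 0 := by
  have hc : Continuous fun y : ℝ => D (s + 1) y := by
    unfold D
    fun_prop
  have h0 : D (s + 1) s = 0 := prod_eq_zero (mem_range.2 (Nat.lt_succ_self s)) (by simp)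
  have h1 : ∀ᶠ y in 𝓝 (s : ℝ), -1 < D (s + 1) y :=
    hc.continuousAt.eventually (lt_mem_nhds (show -1 < D (s + 1) s by rw [h0]; norm_num))
  have h2 : ∀ᶠ y in 𝓝 (s : ℝ), (s : ℝ) - 1 < y := lt_mem_nhds (by linarith)
  have h3 : ∃ᶠ (y : ℝ) in 𝓝 (s : ℝ), y < (s : ℝ) := frequently_lt_nhds _
  obtain ⟨y, hy, ha, hb⟩ := (h3.and_eventually (h1.and h2)).exists
  refine ⟨y, hb, hy, ha, ?_⟩
  rw [D, prod_range_succ, ← D]
  exact mul_neg_of_pos_of_neg (D_pos _ _ hb) (by linarith)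

theorem F_neg (t : ℕ) (ht : 2 ≤ t) : ∃ (q : ℕ) (x : ℝ), 2 * (t : ℝ) - 2 < x ∧ x < 2 * t ∧
    F t q 2 x + F t q 1 x < 0 := by
  classical
  obtain ⟨s, rfl⟩ : ∃ s, t = s + 1 := ⟨t - 1, by omega⟩
  obtain ⟨y, h1, h2, h3, h4⟩ := exists_y s
  have hs : (1 : ℝ) ≤ s := by exact_mod_cast (by omega : 1 ≤ s)
  set x : ℝ := y + (s + 1 : ℕ) with hx
  have hx2 : 2 < x := by rw [hx]; push_cast; linarith
  set c : Setoid (Fin (s + 1)) → ℝ := fun τ => D (Nat.card (Quotient τ)) x *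
    (D (s + 1) (x - Nat.card (Quotient τ)) ^ 2 + D (s + 1) (x - Nat.card (Quotient τ))) with hc
  have hb : c ⊥ < 0 := by
    simp only [hc, k_bot]
    rw [show x - ((s + 1 : ℕ) : ℝ) = y by rw [hx]; ring]
    refine mul_neg_of_pos_of_neg (D_pos _ _ (by rw [hx]; push_cast; linarith)) ?_
    nlinarith
  have hw := w_pos (⊥ : Setoid (Fin (s + 1))) x hx2
  have lim : Tendsto (fun q : ℕ => ∑ τ, c τ * (w τ x / w (⊥ : Setoid (Fin (s + 1))) x) ^ q) atTop
      (𝓝 (∑ τ, if τ = ⊥ then c τ else 0)) := by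
    refine tendsto_finset_sum _ fun τ _ => ?_
    by_cases h : τ = ⊥
    · subst h
      simp [div_self hw.ne']
    · rw [if_neg h]
      have := (tendsto_pow_atTop_nhds_zero_of_lt_one (div_pos (w_pos τ x hx2) hw).le
        ((div_lt_one hw).2 (w_lt τ h x hx2))).const_mul (c τ)
      simpa using this
  rw [sum_ite_eq', if_pos (mem_univ _)] at lim
  obtain ⟨q, hq⟩ := (lim.eventually (gt_mem_nhds hb)).exists
  refine ⟨q, x, by rw [hx]; push_cast; linarith, by rw [hx]; push_cast; linarith, ?_⟩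
  have : F (s + 1) q 2 x + F (s + 1) q 1 x = w (⊥ : Setoid (Fin (s + 1))) x ^ q *
      ∑ τ, c τ * (w τ x / w (⊥ : Setoid (Fin (s + 1))) x) ^ q := by
    rw [F, F, ← sum_add_distrib, mul_sum]
    refine sum_congr rfl fun τ _ => ?_
    rw [div_pow, hc]
    field_simp
  rw [this]
  exact mul_neg_of_pos_of_neg (pow_pos hw _) hq

end Pool.Agent.H.MP_fefe6a_co
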